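import Pool.Agent.H361R2.PP.Main3
import Pool.Agent.TH29.GP.Cls5

/-! The coloured master theorem with single primes. -/

set_option autoImplicit false

open Finset

namespace Pool.Agent.TH29.GP

open Pool.Agent.H361R2.PP
open Pool.Agent.H410R2.AC (wt GG cfg term WW pos Inj coef)

open Classical in
/-- the coloured master theorem: for a positive proportion of the integers `n` at least a quarter of
the colours have a prime in one of their places, no place contains two primes, and there is no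
further prime in the window -/
def ColP : Prop := ∀ (k K : ℕ) (α : Fin k → Fin K → ℝ) (ε Λ : ℝ), 10 ^ 8 * (k + 1) ^ 4 ≤ K →
  0 < ε → ε * K ≤ 1 → 0 < Λ → (∀ i j, 0 ≤ α i j ∧ α i j + ε ≤ Λ) →
  (∀ i j j', j ≠ j' → α i j + ε ≤ α i j' ∨ α i j' + ε ≤ α i j) →
  ∃ c : ℝ, 0 < c ∧ ∃ X₀ : ℕ, ∀ X : ℕ, X₀ ≤ X →
  c * X ≤ (((Ico X (2 * X)).filter (fun n => GoodC α ε Λ X n)).card : ℝ)

open Classical in
theorem sum_classes5 {k K : ℕ} (α : Fin k → Fin K → ℝ) (ε Λ : ℝ) (X : ℕ) (q : ℝ)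
    (h : ∀ b < Wm X, (X : ℝ) / Wm X * q ≤
      (((SI X b).filter (fun n => GoodC α ε Λ X n)).card : ℝ)) :
    q * X ≤ (((Ico X (2 * X)).filter (fun n => GoodC α ε Λ X n)).card : ℝ) := by
  have hW := Wm_pos X
  have h1 : ((Ico X (2 * X)).filter (fun n => GoodC α ε Λ X n)).card =
      ∑ b ∈ range (Wm X), ((SI X b).filter (fun n => GoodC α ε Λ X n)).card := by
    rw [card_eq_sum_card_fiberwise (f := fun n => n % Wm X) (t := range (Wm X))]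
    · refine sum_congr rfl fun b _ => ?_
      congr 1
      ext n
      simp only [mem_filter, mem_SI, mem_Ico]
      tauto
    · intro n _
      simp only [coe_range, Set.mem_Iio]
      exact Nat.mod_lt _ hW
  rw [h1]
  push_cast
  calc q * X = ∑ b ∈ range (Wm X), (X : ℝ) / Wm X * q := by
        rw [sum_const, card_range, nsmul_eq_mul]
        have : (Wm X : ℝ) ≠ 0 := by exact_mod_cast hW.ne'
        field_simp
    _ ≤ _ := sum_le_sum fun b hb => h b (mem_range.1 hb)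

/-- the final inequality -/
theorem fin_ineq5 {k K : ℕ} {ξ s s' Λ μ q : ℝ} (hK : 10 ^ 8 * (k + 1) ^ 4 ≤ K)
    (hξ : ξ = 1 / (8 * ((k : ℝ) + 1))) (hs' : s' = ξ / 16)
    (hΛ : 0 < Λ) (hs : s = ξ / (3000 * (Λ + 1))) (hμ : μ = 4 / s') (hq0 : 0 ≤ q)
    (hq : q ≤ 4 * (1 + ξ)) :
    4 * k * ξ + (k + 1) * s' + 4 * (k + 1) * (20 * Λ * s + k * (K * (q * (μ / K) ^ 2))) ≤
      3 / 4 := by
  have hk : (0 : ℝ) ≤ k := Nat.cast_nonneg k
  have hk1 : (0 : ℝ) < (k : ℝ) + 1 := by linarith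
  have h1 : ((k : ℝ) + 1) * ξ = 1 / 8 := by
    rw [hξ]
    field_simp
  have hξ0 : 0 < ξ := by rw [hξ]; positivity
  have hξ1 : ξ ≤ 1 / 8 := by nlinarith
  have h2 : 4 * (k : ℝ) * ξ ≤ 1 / 2 := by nlinarith
  have h3 : ((k : ℝ) + 1) * s' = 1 / 128 := by
    rw [hs']
    calc ((k : ℝ) + 1) * (ξ / 16) = ((k : ℝ) + 1) * ξ / 16 := by ring
      _ = _ := by rw [h1]; norm_num
  have h4 : Λ * s ≤ ξ / 3000 := by
    rw [hs, mul_div_assoc', div_le_div_iff₀ (by positivity) (by norm_num)]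
    nlinarith
  have h5 : 4 * ((k : ℝ) + 1) * (20 * Λ * s) ≤ 80 / 24000 := by
    calc 4 * ((k : ℝ) + 1) * (20 * Λ * s) = 80 * ((k : ℝ) + 1) * (Λ * s) := by ring
      _ ≤ 80 * ((k : ℝ) + 1) * (ξ / 3000) := mul_le_mul_of_nonneg_left h4 (by positivity)
      _ = 80 / 3000 * (((k : ℝ) + 1) * ξ) := by ring
      _ = _ := by rw [h1]; norm_num
  have hμ' : μ = 512 * ((k : ℝ) + 1) := by
    rw [hμ, hs', hξ]
    field_simp
    norm_num
  have hKr : (10 ^ 8 * ((k : ℝ) + 1) ^ 4) ≤ K := by exact_mod_cast hK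
  have hK0 : (0 : ℝ) < K := lt_of_lt_of_le (by positivity) hKr
  have h6 : 4 * ((k : ℝ) + 1) * (k * (K * (q * (μ / K) ^ 2))) ≤ 1 / 5 := by
    have e1 : 4 * ((k : ℝ) + 1) * (k * (K * (q * (μ / K) ^ 2))) =
        4 * ((k : ℝ) + 1) * k * q * μ ^ 2 / K := by
      field_simp
    rw [e1, div_le_iff₀ hK0, hμ']
    have hq' : q ≤ 9 / 2 := by linarith
    have e2 : 4 * ((k : ℝ) + 1) * k * q * (512 * ((k : ℝ) + 1)) ^ 2 ≤
        4 * ((k : ℝ) + 1) * (k + 1) * (9 / 2) * (512 * ((k : ℝ) + 1)) ^ 2 := by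
      have : 4 * ((k : ℝ) + 1) * k * q ≤ 4 * ((k : ℝ) + 1) * (k + 1) * (9 / 2) := by
        apply mul_le_mul _ hq' hq0 (by positivity)
        apply mul_le_mul_of_nonneg_left (by linarith) (by positivity)
      exact mul_le_mul_of_nonneg_right this (sq_nonneg _)
    have e3 : 4 * ((k : ℝ) + 1) * (k + 1) * (9 / 2) * (512 * ((k : ℝ) + 1)) ^ 2 =
        4718592 * ((k : ℝ) + 1) ^ 4 := by ring
    have e4 : (0 : ℝ) ≤ ((k : ℝ) + 1) ^ 4 := by positivity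
    linarith
  have h7 : 4 * ((k : ℝ) + 1) * (20 * Λ * s + k * (K * (q * (μ / K) ^ 2))) =
      4 * ((k : ℝ) + 1) * (20 * Λ * s) + 4 * ((k : ℝ) + 1) * (k * (K * (q * (μ / K) ^ 2))) := by
    ring
  linarith

open Classical in
theorem colP_of (hSM : SM) (hTy : Pool.Agent.H410R2.AC.Types) (hGGT : GGTypes)
    (hGGS : GGSharp) (hMer : Mer) (hMrv : Mrv) (hCnt : Cnt) (hPnt : PntX) (hCol : Col)
    (hCob : Cob) (hMni : Mni) (hPz : Pz) (hCs : Cs) (hWtx : Wtx) : ColP := by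
  intro k K α ε Λ hkK hε hεK hΛ hα hdis
  have hK1 : 1 ≤ K := le_trans (Nat.one_le_iff_ne_zero.2 (by positivity)) hkK
  have hK0 : (0 : ℝ) < K := by exact_mod_cast hK1
  obtain ⟨ξ, hξ⟩ : ∃ ξ : ℝ, ξ = 1 / (8 * ((k : ℝ) + 1)) := ⟨_, rfl⟩
  have hk0 : (0 : ℝ) ≤ k := Nat.cast_nonneg k
  have hξ0 : 0 < ξ := by rw [hξ]; positivity
  have hξ1 : ξ ≤ 1 / 8 := by
    rw [hξ, div_le_div_iff₀ (by positivity) (by norm_num)]
    linarith
  obtain ⟨s', hs'⟩ : ∃ s' : ℝ, s' = ξ / 16 := ⟨_, rfl⟩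
  obtain ⟨s, hs⟩ : ∃ s : ℝ, s = ξ / (3000 * (Λ + 1)) := ⟨_, rfl⟩
  obtain ⟨θ, hθ⟩ : ∃ θ : ℝ, θ = ξ / 96 := ⟨_, rfl⟩
  have hs'0 : 0 < s' := by rw [hs']; linarith
  have hs0 : 0 < s := by rw [hs]; positivity
  have hθ0 : 0 < θ := by rw [hθ]; linarith
  have hθ1 : θ ≤ 1 / 32 := by rw [hθ]; linarith
  have hsξ : s ≤ ξ / 3000 := by
    rw [hs]
    apply div_le_div_of_nonneg_left hξ0.le (by norm_num)
    linarith
  have hs1 : s ≤ 1 := by linarith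
  have h7 : 7 * s ≤ s' := by rw [hs']; linarith
  obtain ⟨μ, hμd⟩ : ∃ μ : ℝ, μ = 4 / s' := ⟨_, rfl⟩
  have hμ1 : 2 * (((1 : ℕ) : ℝ) + 1) / s' ≤ μ := by
    rw [hμd]
    apply le_of_eq
    norm_num
  obtain ⟨hm, hμ0, hξi⟩ := xi_ineq (m := 1) hξ0 hξ1 hs' hs0.le hsξ hμ1
  have hKε : 0 < (K : ℝ) * ε := by positivity
  have hμ2 : (K : ℝ) * ε ≤ μ := by
    have h8 : (1 : ℝ) ≤ μ := by
      rw [hμd, le_div_iff₀ hs'0]
      linarith
    linarith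
  obtain ⟨c, hcd⟩ : ∃ c : ℝ, c = Real.sqrt (μ / (K * ε)) - 1 := ⟨_, rfl⟩
  have hμε : 1 ≤ μ / (K * ε) := by rwa [le_div_iff₀ hKε, one_mul]
  have hc : 0 ≤ c := by
    rw [hcd, sub_nonneg]
    exact Real.one_le_sqrt.2 hμε
  have hμc : μ = K * ε * (1 + c) ^ 2 := by
    rw [hcd, add_sub_cancel, Real.sq_sqrt (by positivity)]
    field_simp
  obtain ⟨CT, hCT1, hCT⟩ := hGGT
  obtain ⟨CM, hCM1, hCM⟩ := hMer
  obtain ⟨η', hη'⟩ : ∃ η' : ℝ, η' = s / 2 / (2 * (1 + c) ^ 2 * Λ * CM) := ⟨_, rfl⟩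
  have hη'0 : 0 < η' := by rw [hη']; positivity
  obtain ⟨t, u, β, V₀, hV₀, huβ, hβ1, hu, hty⟩ := hTy CT η' (θ / 2) hCT1 hη'0 (by linarith)
  have h1c : (1 : ℝ) ≤ (1 + c) ^ 2 := by nlinarith
  obtain ⟨δ₀, hδ₀, hsm⟩ := hSM t u ((1 + c) ^ 2) Λ θ s (fun τ => (huβ τ).1) hu hθ0 hθ1 h1c hΛ hs0
  obtain ⟨dβ, hdβ0, hdβ⟩ : ∃ d : ℝ, 0 < d ∧ ∀ τ, d ≤ β τ / η' := by
    refine ⟨1 / (∑ τ, η' / β τ + 1), ?_, fun τ => ?_⟩
    · have : 0 ≤ ∑ τ, η' / β τ := sum_nonneg fun τ _ => (div_pos hη'0 (huβ τ).2).le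
      positivity
    · have h1 : η' / β τ ≤ ∑ τ, η' / β τ :=
        single_le_sum (f := fun τ => η' / β τ) (fun τ _ => (div_pos hη'0 (huβ τ).2).le)
          (mem_univ τ)
      have h2 : 0 < η' / β τ := div_pos hη'0 (huβ τ).2
      calc 1 / (∑ τ, η' / β τ + 1) ≤ 1 / (η' / β τ) :=
            one_div_le_one_div_of_le h2 (by linarith)
        _ = β τ / η' := by rw [one_div_div]
  obtain ⟨δ, hδd⟩ : ∃ δ : ℝ, δ = min (min δ₀ V₀) (min (1 / 8) dβ) := ⟨_, rfl⟩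
  have hδ0 : 0 < δ := by
    rw [hδd]
    exact lt_min (lt_min hδ₀ hV₀) (lt_min (by norm_num) hdβ0)
  have hδ1 : δ ≤ δ₀ := by rw [hδd]; exact (min_le_left _ _).trans (min_le_left _ _)
  have hδ2 : δ ≤ V₀ := by rw [hδd]; exact (min_le_left _ _).trans (min_le_right _ _)
  have hδ3 : δ ≤ 1 / 8 := by rw [hδd]; exact (min_le_right _ _).trans (min_le_left _ _)
  have hδ4 : δ ≤ dβ := by rw [hδd]; exact (min_le_right _ _).trans (min_le_right _ _)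
  obtain ⟨C, X1, hC, hSMX⟩ := hsm δ hδ0 hδ1
  obtain ⟨X2, hGX⟩ := hCT δ hδ0 hδ3
  obtain ⟨X3, hMX⟩ := hCM δ hδ0 (by linarith)
  obtain ⟨X4, hVX⟩ := hMrv δ (s / ((1 + c) ^ 2 * η' * δ * t + 1)) hδ0 (by linarith)
    (by positivity)
  obtain ⟨X5, hCX⟩ := hCnt s (min ε Λ) Λ hs0 (lt_min hε hΛ) hΛ
  obtain ⟨X6, hPX⟩ := hPnt s hs0
  obtain ⟨X7, hWX⟩ := hWtx.2 δ hδ0 (by linarith)
  obtain ⟨X8, hFX⟩ := log_floor (a := 1 / 4 - 2 * θ) (θ := θ) (by linarith) hθ0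
  refine ⟨1 / (16 * (3 * k + 1) ^ 2 * C), by positivity,
    X1 + X2 + X3 + X4 + X5 + X6 + X7 + X8 + 2, fun X hX => ?_⟩
  have hX2 : 2 ≤ X := by omega
  have hX1 : 1 ≤ X := by omega
  have hL : 0 < Real.log X := Real.log_pos (by exact_mod_cast hX2)
  obtain ⟨hw1, -, hw3⟩ := hWX X (by omega)
  have hJ : 2 ^ 2 ^ JJ δ X ≤ X := by
    have h1 : (X : ℝ) ^ δ ≤ (X : ℝ) ^ (1 : ℝ) :=
      Real.rpow_le_rpow_of_exponent_le (by exact_mod_cast hX1) (by linarith)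
    rw [Real.rpow_one] at h1
    exact_mod_cast hw1.trans h1
  have hHX : HH X < X := lt_of_lt_of_le hw3 hJ
  obtain ⟨hV0, hM1, hM2⟩ := hMX X (by omega)
  obtain ⟨hF1, hF2⟩ := hFX X (by omega)
  apply sum_classes5
  intro b hb
  rw [mul_one_div]
  -- families
  obtain ⟨S, hS1, hS2, hS3, hS4⟩ := fam_of (X := X) (T := θ / 2) hδ0 hL (by linarith)
    (hty δ · · · hδ0 hδ2) (hGX X (by omega))
  have hBcnt : ((BB X b ⌊Λ * Real.log X⌋₊).card : ℝ) ≤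
      (1 + s) * (Λ * Real.log X * (Nat.totient (Wm X) / Wm X)) := by
    have h1 := hCX X (by omega) b 0 (Λ * Real.log X) le_rfl (by
      rw [zero_add]
      exact mul_le_mul_of_nonneg_right (min_le_right _ _) hL.le) le_rfl
    rw [sub_zero] at h1
    have h2 : (BB X b ⌊Λ * Real.log X⌋₊).filter
        (fun a : ℕ => (0 : ℝ) < a ∧ (a : ℝ) ≤ Λ * Real.log X) = BB X b ⌊Λ * Real.log X⌋₊ := by
      apply filter_true_of_mem
      intro a ha
      rw [mem_BB] at ha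
      refine ⟨by exact_mod_cast ha.1, ?_⟩
      exact (Nat.le_floor_iff (by positivity)).1 ha.2.1
    rw [h2] at h1
    linarith [(abs_le.1 h1).2]
  obtain ⟨D, hsit, hDcf⟩ := sit_of (CM := CM) (X := X) (b := b) (θ := θ) (C := C) hc hs0 hs1 hδ0
    hη'0 hΛ (by linarith) hη' (fun τ => (huβ τ).2) hβ1 (fun τ => hδ4.trans (hdβ τ)) hL S hS1
    hS2 hS3 hS4
    (fun a => if ∃ i j, CL (α i j) ε (Real.log X) a then c else -1)
    (by intro a; split_ifs; exacts [Or.inl rfl, Or.inr rfl])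
    (fun D B hB c hc => hSMX X (by omega) b hb D B hB c hc) hBcnt hV0 hM1 (hVX X (by omega)) hJ
  refine cls5 hCol hCob hMni hPz hCs hsit hX1 hHX hL hθ0 hθ1 hC hΛ k K hK1 α ε hε hdis
    (fun a => by rw [hDcf]) ?_ hBcnt (hPX X (by omega))
    (VG_le hGGS hθ0 hθ1 hX1 hM2 hV0 hF1 hF2) s' μ ξ h7 (by linarith) hμc hm ?_ ?_
  · intro i j
    have h1 := hCX X (by omega) b (α i j * Real.log X) ((α i j + ε) * Real.log X)
      (mul_nonneg (hα i j).1 hL.le) (by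
        have h2 : min ε Λ * Real.log X ≤ ε * Real.log X :=
          mul_le_mul_of_nonneg_right (min_le_left _ _) hL.le
        linarith) (mul_le_mul_of_nonneg_right (hα i j).2 hL.le)
    have h2 : (α i j + ε) * Real.log X - α i j * Real.log X = ε * Real.log X := by ring
    rw [h2] at h1
    exact h1
  · rw [hθ]
    exact hξi
  · refine fin_ineq5 hkK hξ hs' hΛ hs hμd ?_ ?_
    · have : 0 < 1 / 4 - 3 * θ := by linarith
      positivity
    · have hq := xi_aux hξ0 hξ1 hs0.le hsξ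
      rw [hθ]
      exact hq

end Pool.Agent.TH29.GP
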