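import Pool.Agent.TH29.GO.Force
import Pool.Agent.TH29.GO.Chain
import Pool.Agent.TH29.GP.Main5
import Pool.Agent.H361R2.PP.Iface4

/-! Order patterns of consecutive gaps for a positive proportion of the primes. -/

set_option autoImplicit false

open Finset Filter

namespace Pool.Agent.TH29.GP

open Pool.Agent.H361R2.PP
open Pool.Agent.TH29.GO

/-- the `i`-th gap after the prime number `j` -/
noncomputable def gq (j i : ℕ) : ℝ := (P (j + i + 1) : ℝ) - P (j + i)

/-- the property of the index `j` -/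
def OrdP (k : ℕ) (σ : ℕ → ℕ) (A M : ℝ) (j : ℕ) : Prop :=
  (∀ i, i < k → M * Real.log (P j) ≤ gq j i) ∧
  ∀ i i', i < k → i' < k → σ i < σ i' → A * gq j i ≤ gq j i'

theorem ev_lin (Λ : ℝ) (hΛ : 0 < Λ) : ∃ X₁ : ℕ, ∀ X : ℕ, X₁ ≤ X → Λ * Real.log X ≤ X := by
  have h := (Real.isLittleO_log_id_atTop).def (show (0 : ℝ) < 1 / Λ by positivity)
  obtain ⟨X₁, h1⟩ := Filter.eventually_atTop.1 (tendsto_natCast_atTop_atTop (R := ℝ) |>.eventually h)
  refine ⟨X₁ + 1, fun X hX => ?_⟩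
  have h2 := h1 X (by omega)
  have hX1 : (1 : ℝ) ≤ X := by exact_mod_cast (show 1 ≤ X by omega)
  simp only [id, Real.norm_eq_abs] at h2
  rw [abs_of_nonneg (Real.log_nonneg hX1), abs_of_nonneg (by linarith), one_div,
    inv_mul_eq_div, le_div_iff₀ hΛ] at h2
  linarith

open Classical in
theorem density_of (hC : ColP) (hTra : Tra) {k : ℕ} {σ : ℕ → ℕ} (hF : Forces 4 k σ) (A M : ℝ) :
    ∃ c : ℝ, 0 < c ∧ ∃ N₀ : ℕ, ∀ N : ℕ, N₀ ≤ N →
      c * N ≤ (((range N).filter (fun j => OrdP k σ A M j)).card : ℝ) := by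
  obtain ⟨T, hT1, hT⟩ := hF
  obtain ⟨K, hKd⟩ : ∃ K : ℕ, K = 10 ^ 8 * (T + 1) ^ 4 := ⟨_, rfl⟩
  have hK0 : 0 < K := by rw [hKd]; positivity
  have hKr : (0 : ℝ) < K := by exact_mod_cast hK0
  have hK1r : (1 : ℝ) ≤ K := by exact_mod_cast hK0
  obtain ⟨B, hBA⟩ := exists_nat_gt |A|
  have hB1 : 1 ≤ B := by
    have h1 : (0 : ℝ) < B := lt_of_le_of_lt (abs_nonneg A) hBA
    exact_mod_cast h1
  have hAB : A ≤ B := (le_abs_self A).trans hBA.le
  set b : ℕ → ℤ := fun e => ((8 * B) ^ e : ℕ) with hb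
  have hbS : Scale b := by
    constructor
    · intro e
      simp only [hb]
      exact_mod_cast Nat.one_le_pow _ _ (by omega)
    · intro e
      simp only [hb]
      have : 8 * (8 * B) ^ e ≤ (8 * B) ^ (e + 1) := by
        rw [pow_succ, mul_comm]
        exact Nat.mul_le_mul_left _ (by omega)
      exact_mod_cast this
  obtain ⟨off, hinj, -, hforce⟩ := hT K hK0 b hbS 1 (fun e => one_dvd _)
  obtain ⟨D, hDdef⟩ : ∃ D : ℝ, D = ∑ x : Fin T × Fin K, |(off x.1 x.2 : ℝ)| + 1 := ⟨_, rfl⟩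
  have hD1 : 1 ≤ D := by
    rw [hDdef]
    have : 0 ≤ ∑ x : Fin T × Fin K, |(off x.1 x.2 : ℝ)| := Finset.sum_nonneg fun _ _ => abs_nonneg _
    linarith
  have hoffD : ∀ g i, |(off g i : ℝ)| ≤ D := by
    intro g i
    rw [hDdef]
    have := Finset.single_le_sum (f := fun x : Fin T × Fin K => |(off x.1 x.2 : ℝ)|)
      (fun _ _ => abs_nonneg _) (Finset.mem_univ (g, i))
    simp only at this
    linarith
  obtain ⟨u, hu⟩ : ∃ u : ℝ, u = 3 * |M| + 1 := ⟨_, rfl⟩
  have hM0 := abs_nonneg M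
  have hu1 : 1 ≤ u := by linarith
  obtain ⟨ε, hεd⟩ : ∃ ε : ℝ, ε = 1 / (8 * K) := ⟨_, rfl⟩
  have hε0 : 0 < ε := by rw [hεd]; positivity
  have hε8 : ε ≤ 1 / 8 := by
    rw [hεd]
    apply one_div_le_one_div_of_le (by norm_num)
    linarith
  have hεK : ε * K ≤ 1 := by
    rw [hεd]
    have : 1 / (8 * (K : ℝ)) * K = 1 / 8 := by field_simp
    linarith
  obtain ⟨Λ, hΛd⟩ : ∃ Λ : ℝ, Λ = u * (2 * D) + 1 := ⟨_, rfl⟩
  have hΛ0 : 0 < Λ := by rw [hΛd]; positivity
  set α : Fin T → Fin K → ℝ := fun i j => u * ((off i j : ℝ) + D) with hα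
  have hdiff : ∀ i j i' j', off i j < off i' j' → α i j + 1 ≤ α i' j' := by
    intro i j i' j' h
    have h1 : off i j + 1 ≤ off i' j' := h
    have h2 : ((off i j + 1 : ℤ) : ℝ) ≤ (off i' j' : ℝ) := by exact_mod_cast h1
    push_cast at h2
    simp only [hα]
    have h3 : u * ((off i j : ℝ) + 1 + D) ≤ u * ((off i' j' : ℝ) + D) :=
      mul_le_mul_of_nonneg_left (by linarith) (by linarith)
    have h4 : u * ((off i j : ℝ) + 1 + D) = u * ((off i j : ℝ) + D) + u := by ring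
    linarith
  obtain ⟨c1, hc1, X0, hX0⟩ := hC T K α ε Λ (le_of_eq hKd.symm) hε0 hεK hΛ0 (by
    intro i j
    have h1 := abs_le.1 (hoffD i j)
    simp only [hα]
    constructor
    · exact mul_nonneg (by linarith) (by linarith)
    · have h2 : u * ((off i j : ℝ) + D) ≤ u * (2 * D) :=
        mul_le_mul_of_nonneg_left (by linarith) (by linarith)
      linarith) (by
    intro i j j' hjj
    rcases lt_trichotomy (off i j) (off i j') with h | h | h
    · left
      have := hdiff _ _ _ _ h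
      linarith
    · exfalso
      have h1 : ((i, j) : Fin T × Fin K) = (i, j') := hinj h
      exact hjj (congrArg Prod.snd h1)
    · right
      have := hdiff _ _ _ _ h
      linarith)
  obtain ⟨c', hc', htra⟩ := hTra c1 Λ hc1 hΛ0
  obtain ⟨X₁, hX₁⟩ := ev_lin Λ hΛ0
  obtain ⟨N₀, hN₀⟩ := htra (X0 + X₁ + 3)
  refine ⟨c', hc', N₀, fun N hN => ?_⟩
  obtain ⟨X, hXX, hR⟩ := hN₀ N hN
  have hX3 : 3 ≤ X := by omega
  have hX3r : (3 : ℝ) ≤ X := by exact_mod_cast hX3
  have hlin := hX₁ X (by omega)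
  have hres := hR (fun p => OrdP k σ A M (Nat.count Nat.Prime p)) ?_
  · refine hres.trans (Nat.cast_le.2 (card_le_card ?_))
    intro j hj
    rw [mem_filter] at hj ⊢
    refine ⟨hj.1, ?_⟩
    have h1 := hj.2
    unfold P at h1
    rwa [Nat.count_nth_of_infinite Nat.infinite_setOfPred_prime] at h1
  refine (hX0 X (by omega)).trans (Nat.cast_le.2 (card_le_card ?_))
  intro n hn
  rw [mem_filter] at hn ⊢
  refine ⟨hn.1, ?_⟩
  obtain ⟨hnX, hg1, hg2, hg3⟩ := hn
  rw [mem_Ico] at hnX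
  have hL : 0 < Real.log X := Real.log_pos (by linarith)
  set L := Real.log X with hLd
  set N1 := ⌊Λ * L⌋₊ with hN1
  -- the hit places
  set hit : Fin T × Fin K → Prop := fun x => ∃ a ∈ Icc 1 N1, CL (α x.1 x.2) ε L a ∧
    (n + a).Prime with hhit
  set Pf : Finset ℤ := ((univ : Finset (Fin T × Fin K)).filter hit).image (fun x => off x.1 x.2)
    with hPf
  set S : Finset (Fin T) := (univ : Finset (Fin T)).filter (fun i => ∃ j, ∃ a ∈ Icc 1 N1,
      CL (α i j) ε L a ∧ (n + a).Prime) with hS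
  have hchoice : ∀ i : Fin T, ∃ j : Fin K, i ∈ S → hit (i, j) := by
    intro i
    by_cases hi : i ∈ S
    · rw [hS, mem_filter] at hi
      obtain ⟨-, j, hj⟩ := hi
      exact ⟨j, fun _ => hj⟩
    · exact ⟨⟨0, hK0⟩, fun hh => absurd hh hi⟩
  choose cc hcc using hchoice
  obtain ⟨x, E, k1, k2, k3, k4, k5⟩ := hforce Pf S cc (by
    intro z hz
    obtain ⟨y, -, hy⟩ := mem_image.1 hz
    exact ⟨y.1, y.2, hy.symm⟩) hg1 (by
    intro i hi
    exact mem_image.2 ⟨(i, cc i), mem_filter.2 ⟨mem_univ _, hcc i hi⟩, rfl⟩)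
  have hidx : ∀ i, ∃ (y : Fin T × Fin K) (a : ℕ), i ≤ k → a ∈ Icc 1 N1 ∧ CL (α y.1 y.2) ε L a ∧
      (n + a).Prime ∧ off y.1 y.2 = x i := by
    intro i
    by_cases hi : i ≤ k
    · obtain ⟨y, hy, hyx⟩ := mem_image.1 (k2 i hi)
      obtain ⟨a, ha, hca, hp⟩ := (mem_filter.1 hy).2
      exact ⟨y, a, fun _ => ⟨ha, hca, hp, hyx⟩⟩
    · exact ⟨(⟨0, hT1⟩, ⟨0, hK0⟩), 0, fun hh => absurd hh hi⟩
  choose y a hya using hidx
  -- positions
  have hpos : ∀ (z z' : Fin T × Fin K) (v v' : ℕ), CL (α z.1 z.2) ε L v → CL (α z'.1 z'.2) ε L v' →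
      (u * L) * ((off z'.1 z'.2 : ℝ) - off z.1 z.2) - ε * L ≤ (v' : ℝ) - v ∧
      (v' : ℝ) - v ≤ (u * L) * ((off z'.1 z'.2 : ℝ) - off z.1 z.2) + ε * L := by
    intro z z' v v' h1 h2
    unfold CL at h1 h2
    simp only [hα] at h1 h2
    constructor <;> nlinarith [h1.1, h1.2, h2.1, h2.2]
  have hεL : ε * L ≤ (u * L) / 8 := by
    have h1 : ε * L ≤ 1 / 8 * L := mul_le_mul_of_nonneg_right hε8 hL.le
    have h2 : 1 * L ≤ u * L := mul_le_mul_of_nonneg_right hu1 hL.le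
    linarith
  have huL : 0 < u * L := by positivity
  have hlt : ∀ (z z' : Fin T × Fin K) (v v' : ℕ), CL (α z.1 z.2) ε L v → CL (α z'.1 z'.2) ε L v' →
      off z.1 z.2 < off z'.1 z'.2 → v < v' := by
    intro z z' v v' h1 h2 h3
    have h4 := (hpos z z' v v' h1 h2).1
    have h5 : ((off z.1 z.2 + 1 : ℤ) : ℝ) ≤ (off z'.1 z'.2 : ℝ) := by exact_mod_cast h3
    push_cast at h5
    have h6 : (u * L) * 1 ≤ (u * L) * ((off z'.1 z'.2 : ℝ) - off z.1 z.2) :=
      mul_le_mul_of_nonneg_left (by linarith) huL.le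
    have h7 : (0 : ℝ) < (v' : ℝ) - v := by linarith
    have h8 : (v : ℝ) < v' := by linarith
    exact_mod_cast h8
  have hat : ∀ i, i < k → a i < a (i + 1) := by
    intro i hi
    obtain ⟨-, h1, -, h2⟩ := hya i hi.le
    obtain ⟨-, h3, -, h4⟩ := hya (i + 1) hi
    apply hlt (y i) (y (i + 1)) _ _ h1 h3
    rw [h2, h4]
    exact k1 i (i + 1) (by omega) hi
  set ϖ : ℕ → ℕ := fun i => n + a i with hϖ
  have hπp : ∀ i, i ≤ k → (ϖ i).Prime := fun i hi => (hya i hi).2.2.1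
  have hπlt : ∀ i, i < k → ϖ i < ϖ (i + 1) := fun i hi => Nat.add_lt_add_left (hat i hi) n
  have hxle : ∀ i j, i ≤ j → j ≤ k → x i ≤ x j := by
    intro i j hij hj
    rcases hij.lt_or_eq with h1 | h1
    · exact (k1 i j h1 hj).le
    · rw [h1]
  have hno : ∀ i, i < k → ∀ s, ϖ i < s → s < ϖ (i + 1) → ¬ s.Prime := by
    intro i hi s hs1 hs2 hs
    simp only [hϖ] at hs1 hs2
    obtain ⟨v, rfl⟩ : ∃ v, s = n + v := ⟨s - n, by omega⟩
    obtain ⟨e1, e2, e3, e4⟩ := hya i hi.le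
    obtain ⟨f1, f2, f3, f4⟩ := hya (i + 1) hi
    rw [mem_Icc] at e1 f1
    have hvI : v ∈ Icc 1 N1 := mem_Icc.2 ⟨by omega, by omega⟩
    obtain ⟨g, j, hgj⟩ := hg3 v hvI hs
    have hmem : off g j ∈ Pf := mem_image.2 ⟨(g, j), mem_filter.2 ⟨mem_univ _, v, hvI, hgj, hs⟩, rfl⟩
    have h1 : x i < off g j := by
      rw [← e4]
      rcases lt_trichotomy (off (y i).1 (y i).2) (off g j) with h | h | h
      · exact h
      · exfalso
        have h2 : y i = (g, j) := hinj h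
        rw [h2] at e2
        have := hg2 g j (a i) (mem_Icc.2 e1) v hvI e2 hgj e3 hs
        omega
      · exfalso
        have := hlt (g, j) (y i) v (a i) hgj e2 h
        omega
    have h2 : off g j < x (i + 1) := by
      rw [← f4]
      rcases lt_trichotomy (off g j) (off (y (i + 1)).1 (y (i + 1)).2) with h | h | h
      · exact h
      · exfalso
        have h2 : (g, j) = y (i + 1) := hinj h
        rw [← h2] at f2
        have := hg2 g j v hvI (a (i + 1)) (mem_Icc.2 f1) hgj f2 hs f3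
        omega
      · exfalso
        have := hlt (y (i + 1)) (g, j) (a (i + 1)) v f2 hgj h
        omega
    have h3 := hxle 0 i (Nat.zero_le _) hi.le
    have h4 := hxle (i + 1) k hi le_rfl
    obtain ⟨i', hi', h5⟩ := k3 (off g j) hmem (by linarith) (by linarith)
    rw [h5] at h1 h2
    rcases Nat.lt_or_ge i i' with h6 | h6
    · have := hxle (i + 1) i' h6 hi'
      linarith
    · have := hxle i' i h6 hi.le
      linarith
  have hnth := nth_chain hπp hπlt hno
  set Z : ℕ := Nat.count Nat.Prime (ϖ 0) with hZ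
  obtain ⟨ha0I, -, ha0p, -⟩ := hya 0 (Nat.zero_le _)
  refine ⟨a 0, ha0I, ha0p, ?_⟩
  show OrdP k σ A M Z
  have hgp : ∀ i, i < k → gq Z i = (a (i + 1) : ℝ) - a i := by
    intro i hi
    unfold gq P
    rw [add_assoc, hnth (i + 1) hi, hnth i hi.le]
    simp only [hϖ]
    push_cast
    ring
  have hΔ : ∀ i, i < k → (u * L) * ((x (i + 1) : ℝ) - x i) - (u * L) / 8 ≤ gq Z i ∧
      gq Z i ≤ (u * L) * ((x (i + 1) : ℝ) - x i) + (u * L) / 8 := by
    intro i hi
    obtain ⟨-, h1, -, h2⟩ := hya i hi.le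
    obtain ⟨-, h3, -, h4⟩ := hya (i + 1) hi
    have h5 := hpos (y i) (y (i + 1)) _ _ h1 h3
    rw [h2, h4] at h5
    rw [hgp i hi]
    constructor <;> linarith [h5.1, h5.2]
  have hΔ1 : ∀ i, i < k → (1 : ℝ) ≤ (x (i + 1) : ℝ) - x i := by
    intro i hi
    have h1 : x i + 1 ≤ x (i + 1) := k1 i (i + 1) (by omega) hi
    have h2 : ((x i + 1 : ℤ) : ℝ) ≤ (x (i + 1) : ℝ) := by exact_mod_cast h1
    push_cast at h2
    linarith
  have hZ0 : P Z = n + a 0 := by
    have := hnth 0 (Nat.zero_le _)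
    rwa [Nat.add_zero] at this
  constructor
  · intro i hi
    have h1 := (hΔ i hi).1
    have h2 := mul_le_mul_of_nonneg_left (hΔ1 i hi) huL.le
    have hPle : (P Z : ℝ) ≤ (X : ℝ) * X := by
      rw [hZ0]
      have e1 : (n : ℝ) ≤ 2 * X := by exact_mod_cast hnX.2.le
      have e2 : (a 0 : ℝ) ≤ X := by
        rw [mem_Icc] at ha0I
        have e3 : (a 0 : ℝ) ≤ (N1 : ℝ) := by exact_mod_cast ha0I.2
        have e4 : (N1 : ℝ) ≤ Λ * L := Nat.floor_le (by positivity)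
        linarith
      push_cast
      nlinarith
    have hP0 : (0 : ℝ) < P Z := by
      rw [hZ0]
      exact_mod_cast ha0p.pos
    have hP1 : (1 : ℝ) ≤ P Z := by
      rw [hZ0]
      exact_mod_cast ha0p.one_lt.le
    have hlogP : Real.log (P Z) ≤ 2 * L := by
      have e1 := Real.log_le_log hP0 hPle
      rw [Real.log_mul (by linarith) (by linarith)] at e1
      linarith
    have hlogP0 : 0 ≤ Real.log (P Z) := Real.log_nonneg hP1
    have h3 : M * Real.log (P Z) ≤ |M| * (2 * L) := by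
      calc M * Real.log (P Z) ≤ |M| * Real.log (P Z) :=
            mul_le_mul_of_nonneg_right (le_abs_self M) hlogP0
        _ ≤ |M| * (2 * L) := mul_le_mul_of_nonneg_left hlogP hM0
    have h4 : 0 ≤ |M| * L := by positivity
    have h5 : u * L = 3 * (|M| * L) + L := by rw [hu]; ring
    linarith
  · intro i j hi hj hij
    have hE := k5 i j hi hj hij
    have hi1 := (hΔ i hi).2
    have hj1 := (hΔ j hj).1
    have hi2 := hΔ1 i hi
    have hj2 := hΔ1 j hj
    have w1 : ((x (i + 1) : ℝ) - x i) ≤ 2 * (b (E i) : ℝ) := by exact_mod_cast (k4 i hi).2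
    have w2 : (b (E j) : ℝ) ≤ 2 * ((x (j + 1) : ℝ) - x j) := by exact_mod_cast (k4 j hj).1
    have w3 : (8 * (B : ℝ)) * (b (E i) : ℝ) ≤ b (E j) := by
      simp only [hb]
      have h1 : (8 * B) ^ (E i + 1) ≤ (8 * B) ^ (E j) := Nat.pow_le_pow_right (by omega) hE
      have h2 : (8 * B) * (8 * B) ^ (E i) ≤ (8 * B) ^ (E j) := by
        rw [pow_succ] at h1
        rwa [mul_comm]
      exact_mod_cast h2
    have hgi0 : 0 ≤ gq Z i := by
      have h1 := (hΔ i hi).1
      have h2 := mul_le_mul_of_nonneg_left hi2 huL.le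
      linarith
    have hb0 : (1 : ℝ) ≤ b (E i) := by exact_mod_cast hbS.pos (E i)
    have hB1r : (1 : ℝ) ≤ B := by exact_mod_cast hB1
    have u1 : gq Z i ≤ (u * L) * (9 / 4 * (b (E i) : ℝ)) := by
      have h1 : (u * L) * ((x (i + 1) : ℝ) - x i) ≤ (u * L) * (2 * (b (E i) : ℝ)) :=
        mul_le_mul_of_nonneg_left w1 huL.le
      have h2 : (u * L) * 1 ≤ (u * L) * (b (E i) : ℝ) := mul_le_mul_of_nonneg_left hb0 huL.le
      linarith
    have u2 : (u * L) * (7 / 16 * (b (E j) : ℝ)) ≤ gq Z j := by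
      have h1 : (u * L) * (b (E j) : ℝ) ≤ (u * L) * (2 * ((x (j + 1) : ℝ) - x j)) :=
        mul_le_mul_of_nonneg_left w2 huL.le
      have h2 : (u * L) * 1 ≤ (u * L) * ((x (j + 1) : ℝ) - x j) :=
        mul_le_mul_of_nonneg_left hj2 huL.le
      linarith
    calc A * gq Z i ≤ B * gq Z i := mul_le_mul_of_nonneg_right hAB hgi0
      _ ≤ B * ((u * L) * (9 / 4 * (b (E i) : ℝ))) := mul_le_mul_of_nonneg_left u1 (by linarith)
      _ = (u * L) * (9 / 32 * (8 * (B : ℝ) * (b (E i) : ℝ))) := by ring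
      _ ≤ (u * L) * (9 / 32 * (b (E j) : ℝ)) := by
          apply mul_le_mul_of_nonneg_left _ huL.le
          linarith
      _ ≤ (u * L) * (7 / 16 * (b (E j) : ℝ)) := by
          apply mul_le_mul_of_nonneg_left _ huL.le
          have : (0 : ℝ) ≤ b (E j) := by
            have h1 : (1 : ℝ) ≤ b (E j) := by exact_mod_cast hbS.pos (E j)
            linarith
          linarith
      _ ≤ gq Z j := u2

end Pool.Agent.TH29.GP
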