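import Pool.Agent.H361R2.PP.Asm2
import Pool.Agent.H403R2.PP.Tra
import Pool.Agent.TH29.GP.Density

/-! The density theorem with all inputs. -/

set_option autoImplicit false

open Finset

namespace Pool.Agent.TH29.GP

open Pool.Agent.H361R2.PP
open Pool.Agent.TH29.GO

theorem colP : ColP :=
  colP_of sm Pool.Agent.H708R2.types (Pool.Agent.H488R2.ggtypes Pool.Agent.H325R2.wtx)
    Pool.Agent.H633R2.ggSharp (Pool.Agent.H488R2.mer Pool.Agent.H325R2.wtx)
    (Pool.Agent.H488R2.mrv Pool.Agent.H325R2.wtx) Pool.Agent.H363R2.PPCnt.cnt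
    Pool.Agent.H325R2.pnt Pool.Agent.H872R2.PPCol.col Pool.Agent.H872R2.PPCol.cob
    Pool.Agent.H433R2.PPMni.mni Pool.Agent.H909R2.pz_holds Pool.Agent.H909R2.cs_holds
    Pool.Agent.H325R2.wtx

open Classical in
/-- the density theorem for all forced orderings -/
theorem density {k : ℕ} {σ : ℕ → ℕ} (hF : Forces 4 k σ) (A M : ℝ) :
    ∃ c : ℝ, 0 < c ∧ ∃ N₀ : ℕ, ∀ N : ℕ, N₀ ≤ N →
      c * N ≤ (((range N).filter (fun j => OrdP k σ A M j)).card : ℝ) :=
  density_of colP Pool.Agent.H403R2.PP.tra hF A M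

end Pool.Agent.TH29.GP
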